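import Pool.Agent.Lib_helper79.QMain

/-! (diamond, P₁+2P₂)-free graphs are well-quasi-ordered by the induced subgraph relation. -/

namespace Pool.Agent.Results.MP_d1cbdd_co.DiamondP12P2WQO

open SimpleGraph

/-- The diamond: `K₄` minus one edge. -/
def diamond : SimpleGraph (Fin 4) := (⊤ : SimpleGraph (Fin 4)).deleteEdges {s(0, 1)}

/-- `P₁ + 2P₂`: the disjoint union of a path on one vertex and two paths on two vertices. -/
def P1P2P2 : SimpleGraph (Fin 1 ⊕ (Fin 2 ⊕ Fin 2)) :=
  (pathGraph 1).sum ((pathGraph 2).sum (pathGraph 2))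

/-- The class `C` of finite graphs is well-quasi-ordered by the induced subgraph relation: every
infinite sequence `G₀, G₁, …` of finite graphs in the class has `i < j` such that `G i` is
isomorphic to an induced subgraph of `G j`. -/
def WellQuasiOrderedClass (C : ∀ n : ℕ, SimpleGraph (Fin n) → Prop) : Prop :=
  ∀ (N : ℕ → ℕ) (G : ∀ i, SimpleGraph (Fin (N i))), (∀ i, C (N i) (G i)) →
    ∃ i j, i < j ∧ (G i).IsIndContained (G j)

theorem dia_of {V : Type} {G : SimpleGraph V} (h : ¬ diamond.IsIndContained G) :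
    H79.BlockWQO.Dia G := by
  intro a b c d hab hac had hbc hbd hcd
  by_contra hn
  apply h
  have hn' : ¬ G.Adj d c := fun h => hn h.symm
  refine ⟨⟨⟨![c, d, a, b], ?_⟩, ?_⟩⟩
  · intro i j hij
    fin_cases i <;> fin_cases j <;>
      simp [hcd, hcd.symm, hab.ne, hab.ne', hac.ne, hac.ne', had.ne, had.ne', hbc.ne, hbc.ne',
        hbd.ne, hbd.ne'] at hij ⊢
  · intro i j
    change G.Adj (![c, d, a, b] i) (![c, d, a, b] j) ↔ _
    fin_cases i <;> fin_cases j <;>
      simp [diamond, hab, hac, had, hbc, hbd, hn, hn', hab.symm, hac.symm, had.symm, hbc.symm,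
        hbd.symm]

theorem qf_of {V : Type} {G : SimpleGraph V} (h : ¬ P1P2P2.IsIndContained G) :
    H79.BlockWQO.QF G := by
  intro p q r s t hpq hrs hpr hps hqr hqs htp htq htr hts
  have e1 : p ≠ r := by rintro rfl; exact hps hrs
  have e2 : p ≠ s := by rintro rfl; exact hpr hrs.symm
  have e3 : q ≠ r := by rintro rfl; exact hqs hrs
  have e4 : q ≠ s := by rintro rfl; exact hqr hrs.symm
  have e5 : t ≠ p := by rintro rfl; exact htq hpq
  have e6 : t ≠ q := by rintro rfl; exact htp hpq.symm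
  have e7 : t ≠ r := by rintro rfl; exact hts hrs
  have e8 : t ≠ s := by rintro rfl; exact htr hrs.symm
  have a1 : ¬ G.Adj r p := fun h => hpr h.symm
  have a2 : ¬ G.Adj s p := fun h => hps h.symm
  have a3 : ¬ G.Adj r q := fun h => hqr h.symm
  have a4 : ¬ G.Adj s q := fun h => hqs h.symm
  have a5 : ¬ G.Adj p t := fun h => htp h.symm
  have a6 : ¬ G.Adj q t := fun h => htq h.symm
  have a7 : ¬ G.Adj r t := fun h => htr h.symm
  have a8 : ¬ G.Adj s t := fun h => hts h.symm
  apply h
  refine ⟨⟨⟨Sum.elim (fun _ => t) (Sum.elim ![p, q] ![r, s]), ?_⟩, ?_⟩⟩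
  · rintro (i | i | i) (j | j | j) hij
    · exact congrArg Sum.inl (Subsingleton.elim i j)
    · fin_cases j <;> simp_all
    · fin_cases j <;> simp_all
    · fin_cases i <;> simp_all [Ne.symm e5, Ne.symm e6]
    · fin_cases i <;> fin_cases j <;> simp [hpq.ne, hpq.ne'] at hij ⊢
    · fin_cases i <;> fin_cases j <;> simp [e1, e2, e3, e4] at hij ⊢
    · fin_cases i <;> simp_all [Ne.symm e7, Ne.symm e8]
    · fin_cases i <;> fin_cases j <;> simp [e1.symm, e2.symm, e3.symm, e4.symm] at hij ⊢
    · fin_cases i <;> fin_cases j <;> simp [hrs.ne, hrs.ne'] at hij ⊢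
  · rintro (i | i | i) (j | j | j)
    · have := Subsingleton.elim i j
      subst this
      simp [P1P2P2]
    · change G.Adj t (![p, q] j) ↔ _
      fin_cases j <;> simp [P1P2P2, htp, htq]
    · change G.Adj t (![r, s] j) ↔ _
      fin_cases j <;> simp [P1P2P2, htr, hts]
    · change G.Adj (![p, q] i) t ↔ _
      fin_cases i <;> simp [P1P2P2, a5, a6]
    · change G.Adj (![p, q] i) (![p, q] j) ↔ _
      fin_cases i <;> fin_cases j <;> simp [P1P2P2, pathGraph_adj, hpq, hpq.symm]
    · change G.Adj (![p, q] i) (![r, s] j) ↔ _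
      fin_cases i <;> fin_cases j <;> simp [P1P2P2, hpr, hps, hqr, hqs]
    · change G.Adj (![r, s] i) t ↔ _
      fin_cases i <;> simp [P1P2P2, a7, a8]
    · change G.Adj (![r, s] i) (![p, q] j) ↔ _
      fin_cases i <;> fin_cases j <;> simp [P1P2P2, a1, a2, a3, a4]
    · change G.Adj (![r, s] i) (![r, s] j) ↔ _
      fin_cases i <;> fin_cases j <;> simp [P1P2P2, pathGraph_adj, hrs, hrs.symm]

/-- **Q1.** The class of (diamond, `P₁ + 2P₂`)-free graphs is well-quasi-ordered by the induced
subgraph relation. -/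
theorem result :
    WellQuasiOrderedClass
      (fun _ G => ¬ diamond.IsIndContained G ∧ ¬ P1P2P2.IsIndContained G) := by
  intro N G hG
  exact H79.BlockWQO.wqo_of_str _ 4 N G
    (fun i => H79.BlockWQO.diamond_P12P2_str (dia_of (hG i).1) (qf_of (hG i).2))

end Pool.Agent.Results.MP_d1cbdd_co.DiamondP12P2WQO
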