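import Pool.Agent.Lib_helper79.DiaP1P4

/-! (diamond, P₁+P₄)-free graphs are well-quasi-ordered by the induced subgraph relation. -/

namespace Pool.Agent.Results.MP_d1cbdd_co.DiamondP1P4WQO

open SimpleGraph

/-- The diamond: `K₄` minus one edge. -/
def diamond : SimpleGraph (Fin 4) := (⊤ : SimpleGraph (Fin 4)).deleteEdges {s(0, 1)}

/-- `P₁ + P₄`: the disjoint union of the paths on one and on four vertices. -/
def P1P4 : SimpleGraph (Fin 1 ⊕ Fin 4) := (pathGraph 1).sum (pathGraph 4)

/-- The class `C` of finite graphs is well-quasi-ordered by the induced subgraph relation: every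
infinite sequence `G₀, G₁, …` of finite graphs in the class has `i < j` such that `G i` is
isomorphic to an induced subgraph of `G j`. -/
def WellQuasiOrderedClass (C : ∀ n : ℕ, SimpleGraph (Fin n) → Prop) : Prop :=
  ∀ (N : ℕ → ℕ) (G : ∀ i, SimpleGraph (Fin (N i))), (∀ i, C (N i) (G i)) →
    ∃ i j, i < j ∧ (G i).IsIndContained (G j)

theorem dia_of {V : Type} {G : SimpleGraph V} (h : ¬ diamond.IsIndContained G) :
    H79.BlockWQO.Dia G := by
  intro a b c d hab hac had hbc hbd hcd
  by_contra hn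
  apply h
  have hn' : ¬ G.Adj d c := fun h => hn h.symm
  refine ⟨⟨⟨![c, d, a, b], ?_⟩, ?_⟩⟩
  · intro i j hij
    fin_cases i <;> fin_cases j <;>
      simp [hcd, hcd.symm, hab.ne, hab.ne', hac.ne, hac.ne', had.ne, had.ne', hbc.ne, hbc.ne',
        hbd.ne, hbd.ne'] at hij ⊢
  · intro i j
    change G.Adj (![c, d, a, b] i) (![c, d, a, b] j) ↔ _
    fin_cases i <;> fin_cases j <;>
      simp [diamond, hab, hac, had, hbc, hbd, hn, hn', hab.symm, hac.symm, had.symm, hbc.symm,
        hbd.symm]

theorem dom_of {V : Type} {G : SimpleGraph V} (h : ¬ P1P4.IsIndContained G) :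
    H79.BlockWQO.P4dom G Set.univ := by
  intro p _ q _ r _ s _ t _ hpq hqr hrs hpr hps hqs
  by_contra hcon
  push Not at hcon
  obtain ⟨tp, tq, tr, ts, np, nq, nr, ns⟩ := hcon
  have hpr' : p ≠ r := by rintro rfl; exact hps hrs
  have hps' : p ≠ s := by rintro rfl; exact hpr hrs.symm
  have hqs' : q ≠ s := by rintro rfl; exact hps hpq
  apply h
  have e1 : ¬ G.Adj r p := fun h => hpr h.symm
  have e2 : ¬ G.Adj s p := fun h => hps h.symm
  have e3 : ¬ G.Adj s q := fun h => hqs h.symm
  have f1 : ¬ G.Adj p t := fun h => np h.symm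
  have f2 : ¬ G.Adj q t := fun h => nq h.symm
  have f3 : ¬ G.Adj r t := fun h => nr h.symm
  have f4 : ¬ G.Adj s t := fun h => ns h.symm
  refine ⟨⟨⟨Sum.elim (fun _ => t) ![p, q, r, s], ?_⟩, ?_⟩⟩
  · rintro (i | i) (j | j) hij
    · exact congrArg Sum.inl (Subsingleton.elim i j)
    · fin_cases j <;> simp_all
    · fin_cases i <;> simp_all [Ne.symm tp, Ne.symm tq, Ne.symm tr, Ne.symm ts]
    · fin_cases i <;> fin_cases j <;>
        simp [hpr', hpr'.symm, hps', hps'.symm, hqs', hqs'.symm, hpq.ne, hpq.ne', hqr.ne, hqr.ne',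
          hrs.ne, hrs.ne'] at hij ⊢
  · rintro (i | i) (j | j)
    · have := Subsingleton.elim i j
      subst this
      simp [P1P4]
    · change G.Adj t (![p, q, r, s] j) ↔ _
      fin_cases j <;> simp [P1P4, np, nq, nr, ns]
    · change G.Adj (![p, q, r, s] i) t ↔ _
      fin_cases i <;> simp [P1P4, f1, f2, f3, f4]
    · change G.Adj (![p, q, r, s] i) (![p, q, r, s] j) ↔ _
      fin_cases i <;> fin_cases j <;>
        simp [P1P4, pathGraph_adj, hpq, hpq.symm, hqr, hqr.symm, hrs, hrs.symm, hpr, hps, hqs,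
          e1, e2, e3]

/-- **Q2.** The class of (diamond, `P₁ + P₄`)-free graphs is well-quasi-ordered by the induced
subgraph relation. -/
theorem result :
    WellQuasiOrderedClass
      (fun _ G => ¬ diamond.IsIndContained G ∧ ¬ P1P4.IsIndContained G) := by
  intro N G hG
  exact H79.BlockWQO.wqo_of_str 5000 3 N G
    (fun i => H79.BlockWQO.diamond_P1P4_str (dia_of (hG i).1) (dom_of (hG i).2))

end Pool.Agent.Results.MP_d1cbdd_co.DiamondP1P4WQO
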